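import Mathlib

/-!
# Threshold graphs, flows and the `q,t`-Ehrhart polynomial
-/

namespace Pool.Agent.TEhr

open Finset MvPolynomial

/-- `G` is a threshold graph: its vertices can be listed as `σ 0, σ 1, …` so that, when it is
added, the vertex `σ j` is adjacent to all the earlier vertices (if `τ j`) or to none of them. -/
def IsThreshold {n : ℕ} (G : SimpleGraph (Fin n)) : Prop :=
  ∃ (σ : Equiv.Perm (Fin n)) (τ : Fin n → Prop),
    ∀ i j : Fin n, i < j → (G.Adj (σ i) (σ j) ↔ τ j)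

/-- the labels are sorted by weakly decreasing degree -/
def DegreeSorted {n : ℕ} (G : SimpleGraph (Fin n)) : Prop :=
  ∀ i j : Fin n, i < j → (G.neighborSet j).ncard ≤ (G.neighborSet i).ncard

/-- `A` is an integral point of the flow polytope of `G`: `A i j` is the flow on the edge
directed from `i` to `j`, `j < i` -/
def IsFlow {n : ℕ} (G : SimpleGraph (Fin (n + 1))) (A : Fin (n + 1) → Fin (n + 1) → ℕ) : Prop :=
  (∀ i j, ¬ (j < i ∧ G.Adj i j) → A i j = 0) ∧
  ∀ v, (∑ j, (A v j : ℤ)) - ∑ i, (A i v : ℤ) = if v = 0 then -(n : ℤ) else 1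

/-- the weight of one entry, `(q ^ b - t ^ b) / (q - t)` for `b > 0` and `1` for `b = 0` -/
noncomputable def wt (b : ℕ) : MvPolynomial (Fin 2) ℤ :=
  if b = 0 then 1 else ∑ i ∈ range b, X 0 ^ i * X 1 ^ (b - 1 - i)

/-- the weight of a flow -/
noncomputable def weight {n : ℕ} (A : Fin (n + 1) → Fin (n + 1) → ℕ) : MvPolynomial (Fin 2) ℤ :=
  (-((1 - X 0) * (1 - X 1))) ^
    ((univ.filter (fun e : Fin (n + 1) × Fin (n + 1) => 0 < A e.1 e.2)).card - n)
    * ∏ i, ∏ j, wt (A i j)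

/-- the `q,t`-Ehrhart polynomial of the flow polytope of `G`; `q = X 0`, `t = X 1` -/
noncomputable def Ehr {n : ℕ} (G : SimpleGraph (Fin (n + 1))) : MvPolynomial (Fin 2) ℤ :=
  ∑ᶠ A ∈ {A : Fin (n + 1) → Fin (n + 1) → ℕ | IsFlow G A}, weight A

end Pool.Agent.TEhr
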