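import Mathlib

/-!
# Row sums of the Tesler recursion modulo t squared

We work in an arbitrary commutative ring with elements `q` and `t`, `t * t = 0`.
-/

namespace Pool.Agent.TEhr

open Finset

variable {R : Type*} [CommRing R]

/-- the polynomial `(q ^ b - t ^ b) / (q - t)`, which is `0` for `b = 0` -/
def hh (q t : R) (b : ℕ) : R := ∑ i ∈ range b, q ^ i * t ^ (b - 1 - i)

/-- the weight of an entry `b` -/
def wtg (q t : R) (b : ℕ) : R := if b = 0 then 1 else hh q t b

/-- the `q`-integer -/
def br (q : R) (k : ℕ) : R := ∑ i ∈ range k, q ^ i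

theorem hh_zero (q t : R) : hh q t 0 = 0 := by simp [hh]

theorem hh_succ (q t : R) (b : ℕ) : hh q t (b + 1) = t ^ b + q * hh q t b := by
  unfold hh
  rw [sum_range_succ', mul_sum, add_comm]
  simp only [Nat.add_sub_cancel, pow_zero, one_mul, Nat.sub_zero]
  congr 1
  apply sum_congr rfl
  intro i hi
  have hi' := mem_range.mp hi
  have : b - (i + 1) = b - 1 - i := by omega
  rw [this, pow_succ]; ring

theorem br_zero (q : R) : br q 0 = 0 := by simp [br]

theorem br_succ (q : R) (k : ℕ) : br q (k + 1) = br q k + q ^ k := by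
  simp [br, sum_range_succ]

theorem one_sub_mul_br (q : R) (k : ℕ) : (1 - q) * br q k = 1 - q ^ k := by
  induction k with
  | zero => simp [br_zero]
  | succ k ih => rw [br_succ, mul_add, ih]; ring

/-- the factor `-(1 - q)(1 - t)` -/
def MM (q t : R) : R := -((1 - q) * (1 - t))

/-- the series of one variable -/
noncomputable def Om (q t x : R) : PowerSeries R :=
  PowerSeries.mk (fun c => (if c = 0 then 1 else MM q t * hh q t c) * x ^ c)

open PowerSeries in
theorem Om_eq (q t x : R) :
    (1 - C (q * x) * X) * ((1 - C (t * x) * X) * Om q t x)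
      = (1 - C x * X) * (1 - C (q * t * x) * X) := by
  have h1 : (1 - C (t * x) * X) * (PowerSeries.mk (fun c => (t * x) ^ c) : PowerSeries R) = 1 := by
    ext n
    rcases n with _ | n
    · simp [sub_mul, mul_assoc]
    · rw [sub_mul, one_mul, map_sub, mul_assoc, coeff_C_mul, coeff_succ_X_mul]
      simp [pow_succ, mul_comm]
  have h2 : (1 - C (q * x) * X) * (PowerSeries.mk (fun c => hh q t c * x ^ c) : PowerSeries R)
      = C x * X * PowerSeries.mk (fun c => (t * x) ^ c) := by
    ext n
    rcases n with _ | n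
    · simp [sub_mul, mul_assoc, hh_zero]
    · have e1 : coeff (n + 1) (C x * X * (PowerSeries.mk (fun c => (t * x) ^ c) : PowerSeries R))
          = x * (t * x) ^ n := by
        rw [mul_assoc, coeff_C_mul, coeff_succ_X_mul, coeff_mk]
      rw [e1, sub_mul, one_mul, map_sub, mul_assoc, coeff_C_mul, coeff_succ_X_mul, coeff_mk,
        coeff_mk, hh_succ, mul_pow]
      ring
  have h3 : Om q t x = 1 + C (MM q t) * PowerSeries.mk (fun c => hh q t c * x ^ c) := by
    ext n
    rw [map_add, coeff_C_mul]
    simp only [Om, coeff_mk]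
    rcases n with _ | n
    · simp [hh_zero]
    · simp [coeff_one, mul_assoc]
  have h4 : (1 - C (q * x) * X) * ((1 - C (t * x) * X) * Om q t x)
      = (1 - C (q * x) * X) * (1 - C (t * x) * X) + C (MM q t) * (C x * X) := by
    rw [h3]
    have e : (1 - C (q * x) * X) * ((1 - C (t * x) * X) *
        (1 + C (MM q t) * PowerSeries.mk (fun c => hh q t c * x ^ c)))
        = (1 - C (q * x) * X) * (1 - C (t * x) * X) + C (MM q t) * ((1 - C (t * x) * X) *
          ((1 - C (q * x) * X) * PowerSeries.mk (fun c => hh q t c * x ^ c))) := by ring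
    rw [e, h2]
    have e2 : (1 - C (t * x) * X) * (C x * X * PowerSeries.mk (fun c => (t * x) ^ c))
        = C x * X * ((1 - C (t * x) * X) * PowerSeries.mk (fun c => (t * x) ^ c)) := by ring
    rw [e2, h1, mul_one]
  rw [h4]
  simp only [MM, map_mul, map_neg, map_sub, map_one]
  ring

open PowerSeries in
/-- the product of the first `k` series, modulo `t ^ 2` -/
theorem prod_Om (q t : R) (ht : t * t = 0) (k : ℕ) :
    (∏ j ∈ range k, Om q t (q ^ j)) * (1 - C (q ^ k) * X)
      = (1 - X) * (1 + C (t * (1 - q ^ k)) * X) := by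
  have htt : (C t : PowerSeries R) * C t = 0 := by rw [← map_mul, ht, map_zero]
  induction k with
  | zero => simp
  | succ k ih =>
    have h := Om_eq q t (q ^ k)
    have h5 : Om q t (q ^ k) * (1 - C (q ^ (k + 1)) * X)
        = (1 - C (q ^ k) * X) * (1 + C (t * (q ^ k - q ^ (k + 1))) * X) := by
      have e1 : (1 + C (t * q ^ k) * X) * (1 - C (t * q ^ k) * X) = (1 : PowerSeries R) := by
        simp only [map_mul]
        linear_combination (-(C (q ^ k)) ^ 2 * X ^ 2) * htt
      have e2 : Om q t (q ^ k) * (1 - C (q ^ (k + 1)) * X)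
          = (1 + C (t * q ^ k) * X) *
            ((1 - C (q * q ^ k) * X) * ((1 - C (t * q ^ k) * X) * Om q t (q ^ k))) := by
        calc Om q t (q ^ k) * (1 - C (q ^ (k + 1)) * X)
            = ((1 + C (t * q ^ k) * X) * (1 - C (t * q ^ k) * X)) *
              (Om q t (q ^ k) * (1 - C (q ^ (k + 1)) * X)) := by rw [e1, one_mul]
          _ = _ := by rw [pow_succ' q k]; ring
      rw [e2, h]
      simp only [map_mul, map_sub, map_pow]
      linear_combination (-(C q * (C q ^ k) ^ 2 * X ^ 2 * (1 - C q ^ k * X))) * htt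
    rw [prod_range_succ]
    calc (∏ j ∈ range k, Om q t (q ^ j)) * Om q t (q ^ k) * (1 - C (q ^ (k + 1)) * X)
        = (∏ j ∈ range k, Om q t (q ^ j)) * (Om q t (q ^ k) * (1 - C (q ^ (k + 1)) * X)) := by ring
      _ = ((∏ j ∈ range k, Om q t (q ^ j)) * (1 - C (q ^ k) * X)) *
          (1 + C (t * (q ^ k - q ^ (k + 1))) * X) := by rw [h5]; ring
      _ = _ := by
        rw [ih]
        simp only [map_mul, map_sub, map_pow, map_one]
        linear_combination ((1 - X) * (1 - C q ^ k) * (C q ^ k - C q ^ (k + 1)) * X ^ 2) * htt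

/-- the expected row sum -/
def Ph (q t : R) (k c : ℕ) : R :=
  br q k * (q ^ (k * (c - 1)) + t * (if 2 ≤ c then q ^ (k * (c - 2)) else 0))

theorem Ph_one (q t : R) (k : ℕ) : Ph q t k 1 = br q k := by
  have : ¬ (2 ≤ 1) := by omega
  simp [Ph]

theorem Ph_two (q t : R) (k : ℕ) : Ph q t k 2 = br q k * (q ^ k + t) := by
  simp [Ph]

theorem Ph_succ (q t : R) (k n : ℕ) : Ph q t k (n + 2 + 1) = q ^ k * Ph q t k (n + 2) := by
  unfold Ph
  rw [if_pos (by omega), if_pos (by omega)]
  have e1 : n + 2 + 1 - 1 = (n + 2 - 1) + 1 := by omega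
  have e2 : n + 2 + 1 - 2 = (n + 2 - 2) + 1 := by omega
  rw [e1, e2, mul_add k, mul_add k, pow_add, pow_add, mul_one]
  ring

open PowerSeries in
theorem coeff_prod_Om (q t : R) (ht : t * t = 0) (k c : ℕ) (hc : 1 ≤ c) :
    coeff c (∏ j ∈ range k, Om q t (q ^ j)) = MM q t * Ph q t k c := by
  have h := prod_Om q t ht k
  set G := ∏ j ∈ range k, Om q t (q ^ j) with hG
  have h0 : coeff 0 G = 1 := by
    have := congrArg (coeff 0) h
    simpa [mul_sub, ← mul_assoc, mul_add, sub_mul] using this
  have hr : ∀ n, coeff (n + 1) G = q ^ k * coeff n G +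
      coeff (n + 1) ((1 - X) * (1 + C (t * (1 - q ^ k)) * X) : PowerSeries R) := by
    intro n
    rw [← h, mul_sub, mul_one, map_sub]
    have e : G * (C (q ^ k) * X) = C (q ^ k) * (G * X) := by ring
    rw [e, coeff_C_mul, coeff_succ_mul_X]; ring
  have hR : ∀ n, coeff (n + 1) ((1 - X) * (1 + C (t * (1 - q ^ k)) * X) : PowerSeries R)
      = (if n = 0 then -1 + t * (1 - q ^ k) else if n = 1 then -(t * (1 - q ^ k)) else 0) := by
    intro n
    have e : ((1 - X) * (1 + C (t * (1 - q ^ k)) * X) : PowerSeries R)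
        = 1 + C (-1 + t * (1 - q ^ k)) * X - C (t * (1 - q ^ k)) * X ^ 2 := by
      simp only [map_add, map_neg, map_one]; ring
    rw [e, map_sub, map_add, coeff_C_mul, coeff_C_mul, coeff_X, coeff_X_pow, coeff_one]
    rcases n with _ | n
    · simp
    · rcases n with _ | n
      · simp
      · have h1 : ¬ (n + 1 + 1 + 1 = 1) := by omega
        have h2 : ¬ (n + 1 + 1 + 1 = 2) := by omega
        simp
  have hMbr : MM q t * br q k = -((1 - t) * (1 - q ^ k)) := by
    unfold MM
    linear_combination (-(1 - t)) * one_sub_mul_br q k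
  obtain ⟨n, rfl⟩ : ∃ n, c = n + 1 := ⟨c - 1, by omega⟩
  clear hc
  induction n with
  | zero =>
    rw [hr, hR, h0, if_pos rfl, zero_add, Ph_one]
    linear_combination (-1 : R) * hMbr
  | succ n ih =>
    rw [hr, hR, ih]
    rcases n with _ | n
    · rw [if_neg (by omega), if_pos rfl]
      simp only [zero_add]
      rw [Ph_one, show 1 + 1 = 2 from rfl, Ph_two]
      linear_combination (-t) * hMbr - (1 - q ^ k) * ht
    · rw [if_neg (by omega), if_neg (by omega), show n + 1 + 1 + 1 = n + 2 + 1 from rfl,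
        show n + 1 + 1 = n + 2 from rfl, Ph_succ]
      ring

end Pool.Agent.TEhr
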