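import Mathlib
import Pool.Agent.TEhr.Row

/-!
# Row sums
-/

namespace Pool.Agent.TEhr

open Finset

variable {R : Type*} [CommRing R]

/-- the weight of a row -/
noncomputable def rho (q t : R) (r : ℕ →₀ ℕ) : R :=
  (MM q t) ^ (r.support.card - 1) * ∏ j ∈ r.support, hh q t (r j)

theorem MM_mul_rowsum (q t : R) (s : Finset ℕ) (c : ℕ) (hc : 1 ≤ c) (x : ℕ → R) :
    MM q t * ∑ r ∈ finsuppAntidiag s c, rho q t r * ∏ j ∈ s, x j ^ r j
      = PowerSeries.coeff c (∏ j ∈ s, Om q t (x j)) := by
  rw [PowerSeries.coeff_prod, mul_sum]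
  apply sum_congr rfl
  intro r hr
  rw [mem_finsuppAntidiag] at hr
  obtain ⟨h1, h2⟩ := hr
  have hne : r.support.card ≠ 0 := by
    intro h0
    rw [card_eq_zero, Finsupp.support_eq_empty] at h0
    subst h0
    simp at h1
    omega
  have e : ∏ i ∈ s, PowerSeries.coeff (r i) (Om q t (x i))
      = (∏ i ∈ s, (if r i = 0 then 1 else MM q t * hh q t (r i))) * ∏ i ∈ s, x i ^ r i := by
    rw [← prod_mul_distrib]
    apply prod_congr rfl
    intro i _
    simp [Om]
  have e2 : ∏ i ∈ s, (if r i = 0 then 1 else MM q t * hh q t (r i))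
      = ∏ i ∈ r.support, (MM q t * hh q t (r i)) := by
    symm
    rw [← prod_subset h2]
    · apply prod_congr rfl
      intro i hi
      rw [if_neg (Finsupp.mem_support_iff.mp hi)]
    · intro i _ hi
      rw [if_pos (Finsupp.notMem_support_iff.mp hi)]
  rw [e, e2, prod_mul_distrib, prod_const, rho, ← mul_assoc, ← mul_assoc, ← pow_succ',
    Nat.sub_add_cancel (by omega)]

/-- the specialisation with the variable of index `d` set to zero -/
def xd (q : R) (d j : ℕ) : R := if j < d then q ^ j else if j = d then 0 else q ^ (j - 1)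

theorem xd_lt (q : R) {d j : ℕ} (h : j < d) : xd q d j = q ^ j := by simp [xd, h]

theorem xd_self (q : R) (d : ℕ) : xd q d d = 0 := by simp [xd]

theorem xd_gt (q : R) {d j : ℕ} (h : d < j) : xd q d j = q ^ (j - 1) := by
  have h1 : ¬ j < d := by omega
  have h2 : ¬ j = d := by omega
  simp [xd, h1, h2]

/-- `k` reduced by one when it is larger than `d` -/
def kd (d k : ℕ) : ℕ := if k ≤ d then k else k - 1

theorem kd_le {d k : ℕ} (h : k ≤ d) : kd d k = k := by simp [kd, h]

theorem kd_gt {d k : ℕ} (h : d < k) : kd d k = k - 1 := by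
  have : ¬ k ≤ d := by omega
  simp [kd, this]

theorem Om_zero (q t : R) : Om q t 0 = 1 := by
  ext n
  rcases n with _ | n
  · simp [Om]
  · simp [Om, PowerSeries.coeff_one]

theorem prod_Om_xd (q t : R) (d k : ℕ) :
    ∏ j ∈ range k, Om q t (xd q d j) = ∏ j ∈ range (kd d k), Om q t (q ^ j) := by
  induction k with
  | zero => simp [kd]
  | succ k ih =>
    rw [prod_range_succ, ih]
    rcases lt_trichotomy k d with h | h | h
    · rw [kd_le (by omega), kd_le (by omega), prod_range_succ, xd_lt q h]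
    · subst h
      rw [kd_le le_rfl, kd_gt (by omega), xd_self, Om_zero, mul_one, Nat.add_sub_cancel]
    · rw [kd_gt h, kd_gt (by omega), xd_gt q h]
      obtain ⟨m, rfl⟩ : ∃ m, k = m + 1 := ⟨k - 1, by omega⟩
      simp only [Nat.add_sub_cancel]
      rw [prod_range_succ]

theorem rowsum_main (q t : R) (ht : t * t = 0) (hM : IsUnit (MM q t)) (k c : ℕ) (hc : 1 ≤ c) :
    ∑ r ∈ finsuppAntidiag (range k) c, rho q t r * ∏ j ∈ range k, (q ^ j) ^ r j
      = Ph q t k c := by
  apply hM.mul_left_cancel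
  rw [MM_mul_rowsum q t (range k) c hc (fun j => q ^ j), coeff_prod_Om q t ht k c hc]

theorem rowsum_xd (q t : R) (ht : t * t = 0) (hM : IsUnit (MM q t)) (d k c : ℕ) (hc : 1 ≤ c) :
    ∑ r ∈ finsuppAntidiag (range k) c, rho q t r * ∏ j ∈ range k, (xd q d j) ^ r j
      = Ph q t (kd d k) c := by
  apply hM.mul_left_cancel
  rw [MM_mul_rowsum q t (range k) c hc (fun j => xd q d j), prod_Om_xd,
    coeff_prod_Om q t ht (kd d k) c hc]

end Pool.Agent.TEhr
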