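import Mathlib
import Pool.Agent.TEhr.RowB

/-!
# The closed form of the Tesler recursion modulo t squared
-/

namespace Pool.Agent.TEhr

open Finset

variable {R : Type*} [CommRing R]

/-- the Tesler recursion: the vertices `v, v - 1, …, 1` are eliminated one after another -/
noncomputable def WW (q t : R) (b : ℕ → ℕ) : ℕ → (ℕ → ℕ) → R
  | 0, _ => 1
  | v + 1, c => ∑ r ∈ finsuppAntidiag (range (b (v + 1))) (c (v + 1)),
      rho q t r * WW q t b v (fun j => c j + r j)

/-- the set of the dominating labels -/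
def Dset (b : ℕ → ℕ) (v : ℕ) : Finset ℕ := (Icc 1 v).filter (fun d => b d = d)

/-- the product of the `q`-integers of the back-degrees -/
def PP (q : R) (b : ℕ → ℕ) (v : ℕ) : R := ∏ j ∈ Icc 1 v, br q (b j)

/-- the same with one box missing -/
def PPd (q : R) (b : ℕ → ℕ) (d v : ℕ) : R := ∏ j ∈ Icc 1 v, br q (kd d (b j))

/-- admissible loads -/
def Valid (b : ℕ → ℕ) (v : ℕ) (c : ℕ → ℕ) : Prop :=
  ∀ j, 1 ≤ j → j ≤ v → 1 ≤ c j ∧ (b j < j → c j = 1)

/-- the closed form -/
noncomputable def Cl (q t qi : R) (b : ℕ → ℕ) (v : ℕ) (c : ℕ → ℕ) : R :=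
  PP q b v * (∏ j ∈ Icc 1 v, (q ^ j) ^ (c j - 1)) * (1 + t * ∑ d ∈ Dset b v, qi ^ d)
    - t * ∑ d ∈ Dset b v, qi ^ d * PPd q b d v * ∏ j ∈ Icc 1 v, (xd q d j) ^ (c j - 1)

theorem prod_Icc_eq (x : ℕ → R) (hx : x 0 = 1) {v k : ℕ} (hk : k ≤ v + 1) (r : ℕ →₀ ℕ)
    (hr : r.support ⊆ range k) :
    ∏ j ∈ Icc 1 v, x j ^ r j = ∏ j ∈ range k, x j ^ r j := by
  have h1 : ∏ j ∈ range k, x j ^ r j = ∏ j ∈ range (v + 1), x j ^ r j := by
    apply prod_subset
    · intro j hj; rw [mem_range] at hj ⊢; omega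
    · intro j _ hj
      have : j ∉ r.support := fun h => hj (hr h)
      rw [Finsupp.notMem_support_iff.mp this, pow_zero]
  rw [h1]
  have h2 : range (v + 1) = insert 0 (Icc 1 v) := by
    ext j; simp only [mem_range, mem_insert, mem_Icc]; omega
  rw [h2, prod_insert (by simp), hx, one_pow, one_mul]

theorem Cl_add (q t qi : R) (b : ℕ → ℕ) (v : ℕ) (c : ℕ → ℕ) (hc : Valid b v c) {k : ℕ}
    (hk : k ≤ v + 1) (r : ℕ →₀ ℕ) (hr : r.support ⊆ range k) :
    Cl q t qi b v (fun j => c j + r j)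
      = PP q b v * (∏ j ∈ Icc 1 v, (q ^ j) ^ (c j - 1)) * (1 + t * ∑ d ∈ Dset b v, qi ^ d)
          * (∏ j ∈ range k, (q ^ j) ^ r j)
        - t * ∑ d ∈ Dset b v, qi ^ d * PPd q b d v * (∏ j ∈ Icc 1 v, (xd q d j) ^ (c j - 1))
          * ∏ j ∈ range k, (xd q d j) ^ r j := by
  have hs : ∀ x : ℕ → R, x 0 = 1 → ∏ j ∈ Icc 1 v, x j ^ (c j + r j - 1)
      = (∏ j ∈ Icc 1 v, x j ^ (c j - 1)) * ∏ j ∈ range k, x j ^ r j := by
    intro x hx
    rw [← prod_Icc_eq x hx hk r hr, ← prod_mul_distrib]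
    apply prod_congr rfl
    intro j hj
    rw [mem_Icc] at hj
    have := (hc j hj.1 hj.2).1
    rw [← pow_add]
    congr 1
    omega
  unfold Cl
  rw [hs (fun j => q ^ j) (by simp)]
  congr 1
  · ring
  · congr 1
    apply sum_congr rfl
    intro d hd
    have hd1 : 1 ≤ d := by
      simp only [Dset, mem_filter, mem_Icc] at hd
      exact hd.1.1
    rw [hs (fun j => xd q d j) (by rw [xd_lt q (by omega), pow_zero])]
    ring

theorem e5_aux (q qi : R) (hq : q * qi = 1) (w c' : ℕ) (hc1 : 1 ≤ c') :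
    (if 2 ≤ c' then q ^ (w * (c' - 2)) else 0)
      = qi ^ w * (q ^ (w * (c' - 1)) - 0 ^ (c' - 1)) := by
  by_cases h2 : 2 ≤ c'
  · rw [if_pos h2]
    obtain ⟨m, rfl⟩ : ∃ m, c' = m + 2 := ⟨c' - 2, by omega⟩
    have e : m + 2 - 1 = m + 1 := by omega
    rw [e, Nat.add_sub_cancel, pow_succ (0 : R), mul_zero, sub_zero, mul_add, mul_one,
      pow_add, mul_left_comm, ← mul_pow, mul_comm qi q, hq, one_pow, mul_one]
  · have h3 : c' = 1 := by omega
    rw [if_neg h2, h3]
    simp

theorem WW_eq (q t qi : R) (ht : t * t = 0) (hq : q * qi = 1) (hM : IsUnit (MM q t))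
    (b : ℕ → ℕ) (n : ℕ) (hb1 : ∀ j, 1 ≤ j → j ≤ n → b j ≤ j)
    (hb2 : ∀ i j, 1 ≤ i → i ≤ n → 1 ≤ j → j < b i → b j = j) (v : ℕ) (hv : v ≤ n)
    (c : ℕ → ℕ) (hc : Valid b v c) :
    WW q t b v c = Cl q t qi b v c := by
  induction v generalizing c with
  | zero => simp [WW, Cl, PP, Dset]
  | succ v ih =>
    set k := b (v + 1) with hk
    have hkv : k ≤ v + 1 := hb1 (v + 1) (by omega) hv
    set c' := c (v + 1) with hc'
    have hcv := hc (v + 1) (by omega) le_rfl
    have hc1 : 1 ≤ c' := hcv.1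
    have hcV : Valid b v c := fun j h1 h2 => hc j h1 (by omega)
    -- the recursion
    have hrec : WW q t b (v + 1) c
        = PP q b v * (∏ j ∈ Icc 1 v, (q ^ j) ^ (c j - 1)) * (1 + t * ∑ d ∈ Dset b v, qi ^ d)
            * Ph q t k c'
          - t * ∑ d ∈ Dset b v, qi ^ d * PPd q b d v *
              (∏ j ∈ Icc 1 v, (xd q d j) ^ (c j - 1)) * Ph q t (kd d k) c' := by
      have h1 : WW q t b (v + 1) c = ∑ r ∈ finsuppAntidiag (range k) c',
          (PP q b v * (∏ j ∈ Icc 1 v, (q ^ j) ^ (c j - 1)) * (1 + t * ∑ d ∈ Dset b v, qi ^ d)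
            * (rho q t r * ∏ j ∈ range k, (q ^ j) ^ r j)
          - t * ∑ d ∈ Dset b v, qi ^ d * PPd q b d v * (∏ j ∈ Icc 1 v, (xd q d j) ^ (c j - 1))
            * (rho q t r * ∏ j ∈ range k, (xd q d j) ^ r j)) := by
        rw [WW]
        apply sum_congr rfl
        intro r hr
        rw [mem_finsuppAntidiag] at hr
        have hval : Valid b v (fun j => c j + r j) := by
          intro j h1 h2
          refine ⟨le_trans (hcV j h1 h2).1 (Nat.le_add_right _ _), fun h3 => ?_⟩
          have h4 : j ∉ r.support := by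
            intro h5
            have h6 := mem_range.mp (hr.2 h5)
            have := hb2 (v + 1) j (by omega) hv h1 h6
            omega
          show c j + r j = 1
          rw [Finsupp.notMem_support_iff.mp h4, (hcV j h1 h2).2 h3, add_zero]
        rw [ih (by omega) _ hval, Cl_add q t qi b v c hcV hkv r hr.2, mul_sub]
        congr 1
        · ring
        · rw [mul_left_comm, mul_sum]
          congr 1
          apply sum_congr rfl
          intro d _
          ring
      rw [h1, sum_sub_distrib, ← mul_sum, rowsum_main q t ht hM k c' hc1, ← mul_sum, sum_comm]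
      congr 2
      apply sum_congr rfl
      intro d _
      rw [← mul_sum, rowsum_xd q t ht hM d k c' hc1]
    rw [hrec]
    have hIcc : Icc 1 (v + 1) = insert (v + 1) (Icc 1 v) := by
      ext j; simp only [mem_insert, mem_Icc]; omega
    have hnot : v + 1 ∉ Icc 1 v := by simp
    have hPP : PP q b (v + 1) = br q k * PP q b v := by
      unfold PP; rw [hIcc, prod_insert hnot]
    have hPPd : ∀ d, PPd q b d (v + 1) = br q (kd d k) * PPd q b d v := by
      intro d; unfold PPd; rw [hIcc, prod_insert hnot]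
    have hprod : ∀ x : ℕ → R, ∏ j ∈ Icc 1 (v + 1), x j ^ (c j - 1)
        = x (v + 1) ^ (c' - 1) * ∏ j ∈ Icc 1 v, x j ^ (c j - 1) := by
      intro x; rw [hIcc, prod_insert hnot]
    by_cases hD : k = v + 1
    · -- a dominating vertex
      have hDs : Dset b (v + 1) = insert (v + 1) (Dset b v) := by
        unfold Dset
        rw [hIcc, filter_insert, if_pos (by rw [← hk]; exact hD)]
      have hnD : v + 1 ∉ Dset b v := by simp [Dset]
      unfold Cl
      rw [hPP, hprod (fun j => q ^ j), hDs, sum_insert hnD, sum_insert hnD, hPPd,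
        hprod (fun j => xd q (v + 1) j)]
      have e1 : PPd q b (v + 1) v = PP q b v := by
        unfold PPd PP
        apply prod_congr rfl
        intro j hj
        rw [mem_Icc] at hj
        have := hb1 j hj.1 (by omega)
        rw [kd_le (by omega)]
      have e2 : ∏ j ∈ Icc 1 v, (xd q (v + 1) j) ^ (c j - 1)
          = ∏ j ∈ Icc 1 v, (q ^ j) ^ (c j - 1) := by
        apply prod_congr rfl
        intro j hj
        rw [mem_Icc] at hj
        rw [xd_lt q (by omega)]
      have e3 : kd (v + 1) k = k := kd_le (by omega)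
      have e4 : t * ∑ d ∈ Dset b v, qi ^ d * PPd q b d v *
              (∏ j ∈ Icc 1 v, (xd q d j) ^ (c j - 1)) * Ph q t (kd d k) c'
          = t * ∑ d ∈ Dset b v, qi ^ d * PPd q b d (v + 1) *
              ∏ j ∈ Icc 1 (v + 1), (xd q d j) ^ (c j - 1) := by
        rw [mul_sum, mul_sum]
        apply sum_congr rfl
        intro d hd
        simp only [Dset, mem_filter, mem_Icc] at hd
        rw [hPPd, hprod (fun j => xd q d j), xd_gt q (by omega), Nat.add_sub_cancel,
          kd_gt (by omega : d < k), hD, Nat.add_sub_cancel]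
        unfold Ph
        rw [← pow_mul]
        linear_combination (qi ^ d * PPd q b d v * (∏ j ∈ Icc 1 v, (xd q d j) ^ (c j - 1)) *
          br q v * (if 2 ≤ c' then q ^ (v * (c' - 2)) else 0)) * ht
      rw [e4, e1, e2, e3, xd_self, hD]
      have e5 := e5_aux q qi hq (v + 1) c' hc1
      unfold Ph
      rw [e5, ← pow_mul]
      have e6 : (∑ d ∈ Dset b v, qi ^ d * PPd q b d (v + 1) *
              ∏ j ∈ Icc 1 (v + 1), (xd q d j) ^ (c j - 1))
          = ∑ x ∈ Dset b v, qi ^ x * PPd q b x (v + 1) *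
              ∏ j ∈ Icc 1 (v + 1), xd q x j ^ (c j - 1) := rfl
      linear_combination (PP q b v * (∏ j ∈ Icc 1 v, (q ^ j) ^ (c j - 1)) *
        (∑ d ∈ Dset b v, qi ^ d) * br q (v + 1) *
          (qi ^ (v + 1) * (q ^ ((v + 1) * (c' - 1)) - 0 ^ (c' - 1)))) * ht
    · -- an isolated vertex
      have hcc : c' = 1 := hcv.2 (by omega)
      have hDs : Dset b (v + 1) = Dset b v := by
        unfold Dset
        rw [hIcc, filter_insert, if_neg (by rw [← hk]; exact hD)]
      unfold Cl
      rw [hPP, hprod (fun j => q ^ j), hDs, hcc, Nat.sub_self, pow_zero, one_mul, Ph_one]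
      congr 1
      · ring
      · congr 1
        apply sum_congr rfl
        intro d _
        rw [hPPd, hprod (fun j => xd q d j), hcc, Nat.sub_self, pow_zero, Ph_one]
        ring

end Pool.Agent.TEhr
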