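import Mathlib
import Pool.Agent.TEhr.Clos

/-!
# Flows indexed by natural numbers and the Tesler recursion
-/

namespace Pool.Agent.TEhr

open Finset

variable {R : Type*} [CommRing R]

/-- flow matrices on the vertices `0, …, v` with loads `c`; row `i` is the outflow of `i` -/
def SS (b : ℕ → ℕ) (v : ℕ) (c : ℕ → ℕ) : Set (ℕ → (ℕ →₀ ℕ)) :=
  {A | (∀ i, (i = 0 ∨ v < i) → A i = 0) ∧ ∀ i, 1 ≤ i → i ≤ v →
    (A i).support ⊆ range (b i) ∧ ∑ j ∈ range (b i), A i j = c i + ∑ i' ∈ Icc 1 v, A i' i}

open Classical in
/-- the same set as a finite set -/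
noncomputable def FF (b : ℕ → ℕ) : ℕ → (ℕ → ℕ) → Finset (ℕ → (ℕ →₀ ℕ))
  | 0, _ => {fun _ => 0}
  | v + 1, c => (finsuppAntidiag (range (b (v + 1))) (c (v + 1))).biUnion
      (fun r => (FF b v (fun j => c j + r j)).image (fun A => Function.update A (v + 1) r))

theorem mem_FF (b : ℕ → ℕ) (v : ℕ) (hb : ∀ j, 1 ≤ j → j ≤ v → b j ≤ j) (c : ℕ → ℕ)
    (A : ℕ → (ℕ →₀ ℕ)) : A ∈ FF b v c ↔ A ∈ SS b v c := by
  classical
  induction v generalizing c A with
  | zero =>
    simp only [FF, mem_singleton, SS, Set.mem_ofPred_eq]
    constructor
    · rintro rfl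
      exact ⟨fun _ _ => rfl, fun i h1 h2 => by omega⟩
    · rintro ⟨h, _⟩
      funext i
      exact h i (by omega)
  | succ v ih =>
    have ih' := ih (fun j h1 h2 => hb j h1 (by omega))
    simp only [FF, mem_biUnion, mem_image]
    have hIcc : Icc 1 (v + 1) = insert (v + 1) (Icc 1 v) := by
      ext j; simp only [mem_insert, mem_Icc]; omega
    have hnot : v + 1 ∉ Icc 1 v := by simp
    constructor
    · rintro ⟨r, hr, B, hB, rfl⟩
      rw [ih'] at hB
      obtain ⟨h0, h1⟩ := hB
      rw [mem_finsuppAntidiag] at hr
      refine ⟨?_, ?_⟩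
      · intro i hi
        rw [Function.update_of_ne (by omega)]
        exact h0 i (by omega)
      · intro i hi1 hi2
        have hcol : ∀ i, i ≤ v + 1 → ∑ i' ∈ Icc 1 (v + 1), (Function.update B (v + 1) r) i' i
            = r i + ∑ i' ∈ Icc 1 v, B i' i := by
          intro i _
          rw [hIcc, sum_insert hnot, Function.update_self]
          congr 1
          apply sum_congr rfl
          intro i' hi'
          rw [mem_Icc] at hi'
          rw [Function.update_of_ne (by omega)]
        rw [hcol i hi2]
        by_cases hi : i = v + 1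
        · subst hi
          rw [Function.update_self]
          refine ⟨hr.2, ?_⟩
          have hz : r (v + 1) = 0 := by
            apply Finsupp.notMem_support_iff.mp
            intro hm
            have := mem_range.mp (hr.2 hm)
            have := hb (v + 1) (by omega) le_rfl
            omega
          have hz2 : ∑ i' ∈ Icc 1 v, B i' (v + 1) = 0 := by
            apply sum_eq_zero
            intro i' hi'
            rw [mem_Icc] at hi'
            apply Finsupp.notMem_support_iff.mp
            intro hm
            have := mem_range.mp ((h1 i' hi'.1 hi'.2).1 hm)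
            have := hb i' hi'.1 (by omega)
            omega
          rw [hz, hz2]
          simpa using hr.1
        · rw [Function.update_of_ne hi]
          obtain ⟨h2, h3⟩ := h1 i hi1 (by omega)
          exact ⟨h2, by rw [h3]; ring⟩
    · rintro ⟨h0, h1⟩
      refine ⟨A (v + 1), ?_, Function.update A (v + 1) 0, ?_, ?_⟩
      · rw [mem_finsuppAntidiag]
        obtain ⟨h2, h3⟩ := h1 (v + 1) (by omega) le_rfl
        refine ⟨?_, h2⟩
        have hz2 : ∑ i' ∈ Icc 1 (v + 1), A i' (v + 1) = 0 := by
          apply sum_eq_zero
          intro i' hi'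
          rw [mem_Icc] at hi'
          apply Finsupp.notMem_support_iff.mp
          intro hm
          have := mem_range.mp ((h1 i' hi'.1 hi'.2).1 hm)
          have := hb i' hi'.1 (by omega)
          omega
        rw [hz2] at h3
        simpa using h3
      · rw [ih']
        refine ⟨?_, ?_⟩
        · intro i hi
          by_cases hiv : i = v + 1
          · subst hiv; simp
          · rw [Function.update_of_ne hiv]; exact h0 i (by omega)
        · intro i hi1 hi2
          rw [Function.update_of_ne (by omega)]
          obtain ⟨h2, h3⟩ := h1 i hi1 (by omega)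
          refine ⟨h2, ?_⟩
          rw [h3, hIcc, sum_insert hnot, add_assoc]
          congr 2
          apply sum_congr rfl
          intro i' hi'
          rw [mem_Icc] at hi'
          rw [Function.update_of_ne (by omega)]
      · simp

theorem sum_FF (q t : R) (b : ℕ → ℕ) (v : ℕ) (hb : ∀ j, 1 ≤ j → j ≤ v → b j ≤ j) (c : ℕ → ℕ) :
    ∑ A ∈ FF b v c, ∏ i ∈ Icc 1 v, rho q t (A i) = WW q t b v c := by
  classical
  induction v generalizing c with
  | zero => simp [FF, WW]
  | succ v ih =>
    have hb' : ∀ j, 1 ≤ j → j ≤ v → b j ≤ j := fun j h1 h2 => hb j h1 (by omega)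
    have hIcc : Icc 1 (v + 1) = insert (v + 1) (Icc 1 v) := by
      ext j; simp only [mem_insert, mem_Icc]; omega
    have hnot : v + 1 ∉ Icc 1 v := by simp
    rw [FF, WW, sum_biUnion]
    · apply sum_congr rfl
      intro r _
      rw [sum_image]
      · rw [← ih hb', mul_sum]
        apply sum_congr rfl
        intro A _
        rw [hIcc, prod_insert hnot, Function.update_self]
        congr 1
        apply prod_congr rfl
        intro i hi
        rw [mem_Icc] at hi
        rw [Function.update_of_ne (by omega)]
      · intro A hA B hB hAB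
        have hA' := ((mem_FF b v hb' _ A).mp hA).1 (v + 1) (by omega)
        have hB' := ((mem_FF b v hb' _ B).mp hB).1 (v + 1) (by omega)
        funext i
        by_cases hi : i = v + 1
        · rw [hi, hA', hB']
        · have := congrFun hAB i
          simpa [Function.update_of_ne hi] using this
    · intro r _ r' _ hne
      rw [Function.onFun, disjoint_left]
      intro A hA hA'
      rw [mem_image] at hA hA'
      obtain ⟨B, _, hB⟩ := hA
      obtain ⟨B', _, hB'⟩ := hA'
      apply hne
      have h1 := congrFun hB (v + 1)
      have h2 := congrFun hB' (v + 1)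
      rw [Function.update_self] at h1 h2
      rw [h1, h2]

end Pool.Agent.TEhr
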