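import Mathlib
import Pool.Agent.TEhr.Defs
import Pool.Agent.TEhr.FlowN

/-!
# The `q,t`-Ehrhart polynomial and the Tesler recursion
-/

namespace Pool.Agent.TEhr

open Finset MvPolynomial

/-- extend a matrix by zero -/
noncomputable def toN {n : ℕ} (A : Fin (n + 1) → Fin (n + 1) → ℕ) : ℕ → (ℕ →₀ ℕ) := fun i =>
  Finsupp.onFinset (range (n + 1))
    (fun j => if h : i < n + 1 ∧ j < n + 1 then A ⟨i, h.1⟩ ⟨j, h.2⟩ else 0)
    (by
      intro j hj
      by_contra h
      apply hj
      rw [mem_range] at h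
      rw [dif_neg (fun h' => h h'.2)])

theorem toN_apply {n : ℕ} (A : Fin (n + 1) → Fin (n + 1) → ℕ) (i j : Fin (n + 1)) :
    toN A i j = A i j := by
  simp only [toN, Finsupp.onFinset_apply]
  rw [dif_pos ⟨i.2, j.2⟩]

theorem toN_of_not {n : ℕ} (A : Fin (n + 1) → Fin (n + 1) → ℕ) (i j : ℕ)
    (h : ¬ (i < n + 1 ∧ j < n + 1)) : toN A i j = 0 := by
  simp only [toN, Finsupp.onFinset_apply]
  rw [dif_neg h]

variable {n : ℕ} (G : SimpleGraph (Fin (n + 1))) (b : ℕ → ℕ)

/-- the graph is described by the back-degrees `b` -/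
def Desc {n : ℕ} (G : SimpleGraph (Fin (n + 1))) (b : ℕ → ℕ) : Prop :=
  (∀ i, 1 ≤ i → i ≤ n → b i ≤ i) ∧
    ∀ i j : Fin (n + 1), j < i → (G.Adj i j ↔ (j : ℕ) < b i)

variable {G b}

theorem toN_zero_row {A : Fin (n + 1) → Fin (n + 1) → ℕ} (hA : IsFlow G A) (i : ℕ)
    (hi : i = 0 ∨ n < i) : toN A i = 0 := by
  ext j
  by_cases h : i < n + 1 ∧ j < n + 1
  · have hi0 : i = 0 := by omega
    subst hi0
    have := toN_apply A (⟨0, h.1⟩ : Fin (n + 1)) ⟨j, h.2⟩
    simp only at this
    rw [this, hA.1 _ _ (by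
      rintro ⟨h1, _⟩
      exact absurd h1 (by simp [Fin.lt_def]))]
    rfl
  · rw [toN_of_not A i j h]; rfl

theorem toN_supp (hd : Desc G b) {A : Fin (n + 1) → Fin (n + 1) → ℕ} (hA : IsFlow G A) (i : ℕ) :
    (toN A i).support ⊆ range (b i) := by
  intro j hj
  rw [Finsupp.mem_support_iff] at hj
  rw [mem_range]
  by_cases h : i < n + 1 ∧ j < n + 1
  · have h1 := toN_apply A (⟨i, h.1⟩ : Fin (n + 1)) ⟨j, h.2⟩
    simp only at h1
    rw [h1] at hj
    have h2 : (⟨j, h.2⟩ : Fin (n + 1)) < ⟨i, h.1⟩ ∧ G.Adj ⟨i, h.1⟩ ⟨j, h.2⟩ := by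
      by_contra h3
      exact hj (hA.1 _ _ h3)
    exact (hd.2 _ _ h2.1).mp h2.2
  · exact absurd (toN_of_not A i j h) hj

theorem toN_row_sum (hd : Desc G b) {A : Fin (n + 1) → Fin (n + 1) → ℕ} (hA : IsFlow G A)
    (i : Fin (n + 1)) (hi : 1 ≤ (i : ℕ)) :
    ∑ j ∈ range (b i), toN A i j = ∑ j, A i j := by
  have h1 : ∑ j ∈ range (b i), toN A i j = ∑ j ∈ range (n + 1), toN A i j := by
    apply sum_subset
    · intro j hj
      rw [mem_range] at hj ⊢
      have := hd.1 i hi (by omega)
      omega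
    · intro j _ hj
      apply Finsupp.notMem_support_iff.mp
      exact fun h => hj (toN_supp hd hA i h)
  rw [h1, ← Fin.sum_univ_eq_sum_range (fun j => toN A i j) (n + 1)]
  apply sum_congr rfl
  intro j _
  exact toN_apply A i j

theorem toN_col_sum {A : Fin (n + 1) → Fin (n + 1) → ℕ} (hA : IsFlow G A) (v : Fin (n + 1)) :
    ∑ i' ∈ Icc 1 n, toN A i' v = ∑ i, A i v := by
  have h2 : range (n + 1) = insert 0 (Icc 1 n) := by
    ext j; simp only [mem_range, mem_insert, mem_Icc]; omega
  have h3 : ∑ i' ∈ range (n + 1), toN A i' v = ∑ i' ∈ Icc 1 n, toN A i' v := by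
    rw [h2, sum_insert (by simp), toN_zero_row hA 0 (Or.inl rfl)]
    simp
  rw [← h3, ← Fin.sum_univ_eq_sum_range (fun i' => toN A i' v) (n + 1)]
  apply sum_congr rfl
  intro i _
  exact toN_apply A i v

theorem bijOn (hd : Desc G b) :
    Set.BijOn (toN (n := n)) {A | IsFlow G A} (SS b n (fun _ => 1)) := by
  refine ⟨?_, ?_, ?_⟩
  · intro A hA
    have hA' : IsFlow G A := hA
    refine ⟨fun i hi => toN_zero_row hA' i hi, fun i h1 h2 => ⟨toN_supp hd hA' i, ?_⟩⟩
    have e1 := toN_row_sum hd hA' ⟨i, by omega⟩ h1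
    have e2 := toN_col_sum hA' ⟨i, by omega⟩
    simp only at e1 e2
    rw [e1, e2]
    have e3 := hA'.2 ⟨i, by omega⟩
    rw [if_neg (by rw [Fin.ext_iff]; simp; omega)] at e3
    have : (∑ j, (A ⟨i, by omega⟩ j : ℤ)) = 1 + ∑ i', (A i' ⟨i, by omega⟩ : ℤ) := by linarith
    exact_mod_cast this
  · intro A _ B _ hAB
    funext i j
    have := congrFun hAB i
    have h2 := DFunLike.congr_fun this (j : ℕ)
    rwa [toN_apply, toN_apply] at h2
  · intro B hB
    obtain ⟨h0, h1⟩ := hB
    refine ⟨fun i j => B i j, ?_, ?_⟩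
    · have hz : ∀ i j : Fin (n + 1), ¬ (j < i ∧ G.Adj i j) → B i j = 0 := by
        intro i j hij
        by_cases hi : (i : ℕ) = 0
        · rw [h0 i (Or.inl hi)]; rfl
        · apply Finsupp.notMem_support_iff.mp
          intro hm
          have h2 := mem_range.mp ((h1 i (by omega) (by omega)).1 hm)
          have h3 := hd.1 i (by omega) (by omega)
          have h4 : j < i := by rw [Fin.lt_def]; omega
          exact hij ⟨h4, (hd.2 i j h4).mpr h2⟩
      have hpos : ∀ v : Fin (n + 1), v ≠ 0 →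
          (∑ j : Fin (n + 1), (B v j : ℤ)) - ∑ i : Fin (n + 1), (B i v : ℤ) = 1 := by
        intro v hv
        have hv1 : 1 ≤ (v : ℕ) := by
          have : (v : ℕ) ≠ 0 := fun h => hv (Fin.ext h)
          omega
        obtain ⟨h2, h3⟩ := h1 v hv1 (by omega)
        have e1 : ∑ j ∈ range (b v), B v j = ∑ j : Fin (n + 1), B v j := by
          rw [Fin.sum_univ_eq_sum_range (fun j => B v j) (n + 1)]
          apply sum_subset
          · intro j hj
            rw [mem_range] at hj ⊢
            have := hd.1 v hv1 (by omega)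
            omega
          · intro j _ hj
            apply Finsupp.notMem_support_iff.mp
            exact fun h => hj (h2 h)
        have e2 : ∑ i' ∈ Icc 1 n, B i' v = ∑ i : Fin (n + 1), B i v := by
          rw [Fin.sum_univ_eq_sum_range (fun i => B i v) (n + 1)]
          have h5 : range (n + 1) = insert 0 (Icc 1 n) := by
            ext j; simp only [mem_range, mem_insert, mem_Icc]; omega
          rw [h5, sum_insert (by simp), h0 0 (Or.inl rfl)]
          simp
        rw [e1, e2] at h3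
        have h4 : (∑ j : Fin (n + 1), (B v j : ℤ)) = 1 + ∑ i : Fin (n + 1), (B i v : ℤ) := by
          exact_mod_cast h3
        linarith
      refine ⟨hz, ?_⟩
      intro v
      by_cases hv : v = 0
      · subst hv
        rw [if_pos rfl]
        have htot : ∑ v : Fin (n + 1), ((∑ j : Fin (n + 1), (B v j : ℤ))
            - ∑ i : Fin (n + 1), (B i v : ℤ)) = 0 := by
          rw [sum_sub_distrib, sum_comm]; simp
        rw [Fin.sum_univ_succ] at htot
        have h6 : ∑ i : Fin n, ((∑ j : Fin (n + 1), (B (i.succ : Fin (n + 1)) j : ℤ))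
            - ∑ i' : Fin (n + 1), (B i' (i.succ : Fin (n + 1)) : ℤ)) = n := by
          rw [sum_congr rfl (fun i _ => hpos i.succ (Fin.succ_ne_zero i))]
          simp
        rw [h6] at htot
        linarith
      · rw [if_neg hv]
        exact hpos v hv
    · funext i
      ext j
      by_cases h : i < n + 1 ∧ j < n + 1
      · have := toN_apply (fun i j : Fin (n + 1) => B i j) ⟨i, h.1⟩ ⟨j, h.2⟩
        simpa using this
      · rw [toN_of_not _ i j h]
        symm
        by_cases hi : i = 0 ∨ n < i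
        · rw [h0 i hi]; rfl
        · apply Finsupp.notMem_support_iff.mp
          intro hm
          have h2 := mem_range.mp ((h1 i (by omega) (by omega)).1 hm)
          have h3 := hd.1 i (by omega) (by omega)
          omega

theorem card_supp (i : Fin (n + 1)) (A : Fin (n + 1) → Fin (n + 1) → ℕ) :
    (univ.filter (fun j : Fin (n + 1) => 0 < A i j)).card = (toN A i).support.card := by
  apply card_bij (fun (j : Fin (n + 1)) _ => (j : ℕ))
  · intro j hj
    rw [Finsupp.mem_support_iff, toN_apply]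
    exact (mem_filter.mp hj).2.ne'
  · intro j _ j' _ h
    exact Fin.ext h
  · intro j hj
    rw [Finsupp.mem_support_iff] at hj
    by_cases h : (i : ℕ) < n + 1 ∧ j < n + 1
    · refine ⟨⟨j, h.2⟩, ?_, rfl⟩
      rw [mem_filter]
      refine ⟨mem_univ _, ?_⟩
      have := toN_apply A i ⟨j, h.2⟩
      simp only at this
      rw [this] at hj
      omega
    · exact absurd (toN_of_not A i j h) hj

theorem weight_eq (hd : Desc G b) {A : Fin (n + 1) → Fin (n + 1) → ℕ} (hA : IsFlow G A) :
    weight A = ∏ i ∈ Icc 1 n, rho (X 0 : MvPolynomial (Fin 2) ℤ) (X 1) (toN A i) := by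
  have h5 : range (n + 1) = insert 0 (Icc 1 n) := by
    ext j; simp only [mem_range, mem_insert, mem_Icc]; omega
  -- the number of positive entries
  have hcard : (univ.filter (fun e : Fin (n + 1) × Fin (n + 1) => 0 < A e.1 e.2)).card
      = ∑ i ∈ Icc 1 n, (toN A i).support.card := by
    have h1 : (univ.filter (fun e : Fin (n + 1) × Fin (n + 1) => 0 < A e.1 e.2)).card
        = ∑ i : Fin (n + 1), (toN A i).support.card := by
      rw [card_filter, Fintype.sum_prod_type]
      apply sum_congr rfl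
      intro i _
      rw [← card_supp i A, card_filter]
    rw [h1, Fin.sum_univ_eq_sum_range (fun i => (toN A i).support.card) (n + 1), h5,
      sum_insert (by simp), toN_zero_row hA 0 (Or.inl rfl)]
    simp
  have hge : ∀ i ∈ Icc 1 n, 1 ≤ (toN A i).support.card := by
    intro i hi
    rw [mem_Icc] at hi
    have h6 := ((bijOn hd).1 hA).2 i hi.1 hi.2
    rw [Nat.one_le_iff_ne_zero, Ne, card_eq_zero, Finsupp.support_eq_empty]
    intro h7
    have h8 := h6.2
    rw [h7] at h8
    simp at h8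
    omega
  have hsub : (∑ i ∈ Icc 1 n, (toN A i).support.card) - n
      = ∑ i ∈ Icc 1 n, ((toN A i).support.card - 1) := by
    have h9 : ∑ i ∈ Icc 1 n, (toN A i).support.card
        = ∑ i ∈ Icc 1 n, ((toN A i).support.card - 1) + n := by
      have h10 : ∑ i ∈ Icc 1 n, (toN A i).support.card
          = ∑ i ∈ Icc 1 n, (((toN A i).support.card - 1) + 1) := by
        apply sum_congr rfl
        intro i hi
        have := hge i hi
        omega
      rw [h10, sum_add_distrib]
      simp
    omega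
  have hw : ∏ i : Fin (n + 1), ∏ j : Fin (n + 1), wt (A i j)
      = ∏ i ∈ Icc 1 n, ∏ j ∈ (toN A i).support,
          hh (X 0 : MvPolynomial (Fin 2) ℤ) (X 1) (toN A i j) := by
    have h11 : ∀ i : Fin (n + 1), ∏ j : Fin (n + 1), wt (A i j)
        = ∏ j ∈ (toN A i).support, hh (X 0 : MvPolynomial (Fin 2) ℤ) (X 1) (toN A i j) := by
      intro i
      have h12 : ∏ j : Fin (n + 1), wt (A i j) = ∏ j ∈ range (n + 1), wt (toN A i j) := by
        rw [← Fin.prod_univ_eq_prod_range (fun j => wt (toN A i j)) (n + 1)]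
        apply prod_congr rfl
        intro j _
        rw [toN_apply]
      rw [h12]
      symm
      have h13 : (toN A i).support ⊆ range (n + 1) := by
        intro j hj
        rw [Finsupp.mem_support_iff] at hj
        rw [mem_range]
        by_contra h
        exact hj (toN_of_not A i j (fun h' => h h'.2))
      rw [← prod_subset h13]
      · apply prod_congr rfl
        intro j hj
        rw [Finsupp.mem_support_iff] at hj
        unfold wt hh
        rw [if_neg hj]
      · intro j _ hj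
        unfold wt
        rw [if_pos (Finsupp.notMem_support_iff.mp hj)]
    rw [prod_congr rfl (fun i _ => h11 i),
      Fin.prod_univ_eq_prod_range (fun i => ∏ j ∈ (toN A i).support,
        hh (X 0 : MvPolynomial (Fin 2) ℤ) (X 1) (toN A i j)) (n + 1), h5,
      prod_insert (by simp), toN_zero_row hA 0 (Or.inl rfl)]
    simp
  unfold weight rho
  rw [prod_mul_distrib, hw, hcard, hsub, prod_pow_eq_pow_sum]
  rfl

theorem SS_eq_FF (hd : Desc G b) : SS b n (fun _ => 1) = ↑(FF b n (fun _ => 1)) := by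
  ext A
  exact (mem_FF b n hd.1 (fun _ => 1) A).symm

theorem Ehr_eq_aux (hd : Desc G b) :
    ∑ᶠ A ∈ {A : Fin (n + 1) → Fin (n + 1) → ℕ | IsFlow G A}, weight A
      = ∑ᶠ A ∈ SS b n (fun _ => 1), ∏ i ∈ Icc 1 n,
          rho (X 0 : MvPolynomial (Fin 2) ℤ) (X 1) (A i) :=
  finsum_mem_eq_of_bijOn toN (bijOn hd) (fun _ hA => weight_eq hd hA)

theorem Ehr_eq (hd : Desc G b) :
    Ehr G = WW (X 0 : MvPolynomial (Fin 2) ℤ) (X 1) b n (fun _ => 1) := by
  have h1 : Ehr G = ∑ᶠ A ∈ {A : Fin (n + 1) → Fin (n + 1) → ℕ | IsFlow G A}, weight A := rfl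
  rw [h1, Ehr_eq_aux hd, SS_eq_FF hd, finsum_mem_coe_finset]
  exact sum_FF (X 0 : MvPolynomial (Fin 2) ℤ) (X 1) b n hd.1 (fun _ => 1)

end Pool.Agent.TEhr
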