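import Mathlib
import Pool.Agent.TEhr.Conv

/-!
# Evaluation in the dual numbers and the first two coefficients
-/

namespace Pool.Agent.TEhr

open Finset

section general
variable {R S : Type*} [CommRing R] [CommRing S]

theorem map_hh (f : R →+* S) (q t : R) (b : ℕ) : f (hh q t b) = hh (f q) (f t) b := by
  simp [hh, map_sum]

theorem map_br (f : R →+* S) (q : R) (b : ℕ) : f (br q b) = br (f q) b := by
  simp [br, map_sum]

theorem map_MM (f : R →+* S) (q t : R) : f (MM q t) = MM (f q) (f t) := by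
  simp [MM]

theorem map_rho (f : R →+* S) (q t : R) (r : ℕ →₀ ℕ) : f (rho q t r) = rho (f q) (f t) r := by
  simp [rho, map_MM, map_hh, map_prod]

theorem map_WW (f : R →+* S) (q t : R) (b : ℕ → ℕ) (v : ℕ) (c : ℕ → ℕ) :
    f (WW q t b v c) = WW (f q) (f t) b v c := by
  induction v generalizing c with
  | zero => simp [WW]
  | succ v ih =>
    rw [WW, WW, map_sum]
    apply sum_congr rfl
    intro r _
    rw [map_mul, map_rho, ih]

theorem map_PP (f : R →+* S) (q : R) (b : ℕ → ℕ) (v : ℕ) : f (PP q b v) = PP (f q) b v := by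
  simp [PP, map_prod, map_br]

theorem map_PPd (f : R →+* S) (q : R) (b : ℕ → ℕ) (d v : ℕ) :
    f (PPd q b d v) = PPd (f q) b d v := by
  simp [PPd, map_prod, map_br]

/-- the telescoping identity -/
theorem PP_sub_PPd (q : R) (b : ℕ → ℕ) (d n : ℕ) (hd : 1 ≤ d) :
    PP q b n - PPd q b d n = ∑ i ∈ (Icc 1 n).filter (fun i => d < b i),
      q ^ (b i - 1) * (∏ j ∈ Ico 1 i, br q (b j)) * ∏ j ∈ Ioc i n, br q (kd d (b j)) := by
  induction n with
  | zero => simp [PP, PPd]
  | succ n ih =>
    have hIcc : Icc 1 (n + 1) = insert (n + 1) (Icc 1 n) := by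
      ext j; simp only [mem_insert, mem_Icc]; omega
    have hnot : n + 1 ∉ Icc 1 n := by simp
    have e1 : PP q b (n + 1) = br q (b (n + 1)) * PP q b n := by
      unfold PP; rw [hIcc, prod_insert hnot]
    have e2 : PPd q b d (n + 1) = br q (kd d (b (n + 1))) * PPd q b d n := by
      unfold PPd; rw [hIcc, prod_insert hnot]
    have e3 : ∑ i ∈ (Icc 1 n).filter (fun i => d < b i),
        q ^ (b i - 1) * (∏ j ∈ Ico 1 i, br q (b j)) * ∏ j ∈ Ioc i (n + 1), br q (kd d (b j))
        = br q (kd d (b (n + 1))) * (PP q b n - PPd q b d n) := by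
      rw [ih, mul_sum]
      apply sum_congr rfl
      intro i hi
      have hi' := (mem_Icc.mp (mem_filter.mp hi).1)
      have e4 : Ioc i (n + 1) = insert (n + 1) (Ioc i n) := by
        ext j; simp only [mem_insert, mem_Ioc]; omega
      rw [e4, prod_insert (by simp)]
      ring
    rw [e1, e2, hIcc, filter_insert]
    by_cases h : d < b (n + 1)
    · rw [if_pos h, sum_insert (by simp), e3, kd_gt h]
      obtain ⟨m, hm⟩ : ∃ m, b (n + 1) = m + 1 := ⟨b (n + 1) - 1, by omega⟩
      have e5 : Ico 1 (n + 1) = Icc 1 n := by ext j; simp only [mem_Ico, mem_Icc]; omega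
      have e6 : PP q b n = ∏ j ∈ Ico 1 (n + 1), br q (b j) := by rw [e5]; rfl
      rw [← e6, hm, Nat.add_sub_cancel, br_succ]
      simp
      ring
    · rw [if_neg h, e3, kd_le (by omega)]
      ring

end general

open Polynomial in
/-- the coefficient of `t` -/
noncomputable def TT (b : ℕ → ℕ) (n : ℕ) : Polynomial ℤ :=
  ∑ d ∈ Dset b n, ∑ i ∈ (Icc 1 n).filter (fun i => d < b i),
    X ^ (b i - 1 - d) * (∏ j ∈ Ico 1 i, br X (b j)) * ∏ j ∈ Ioc i n, br X (kd d (b j))

/-- the field of fractions -/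
abbrev KK := FractionRing (Polynomial ℤ)

/-- the variable in the field of fractions -/
noncomputable def qK : KK := algebraMap (Polynomial ℤ) KK Polynomial.X

theorem qK_ne : qK ≠ 0 := by
  unfold qK
  rw [Ne, IsFractionRing.to_map_eq_zero_iff]
  exact Polynomial.X_ne_zero

theorem one_sub_qK_ne : (1 : KK) - qK ≠ 0 := by
  unfold qK
  rw [← map_one (algebraMap (Polynomial ℤ) KK), ← map_sub, Ne, IsFractionRing.to_map_eq_zero_iff]
  intro h
  have := congrArg (Polynomial.eval 0) h
  simp at this

/-- the evaluation -/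
noncomputable def ev : MvPolynomial (Fin 2) ℤ →+* DualNumber KK :=
  MvPolynomial.eval₂Hom (Int.castRingHom _) ![TrivSqZeroExt.inl qK, DualNumber.eps]

theorem ev_X0 : ev (MvPolynomial.X 0) = TrivSqZeroExt.inl qK := by simp [ev]
theorem ev_X1 : ev (MvPolynomial.X 1) = DualNumber.eps := by simp [ev]

/-- the exponent vector -/
noncomputable def mon (a b : ℕ) : Fin 2 →₀ ℕ := Finsupp.single 0 a + Finsupp.single 1 b

theorem mon_eq (m : Fin 2 →₀ ℕ) (a b : ℕ) : m = mon a b ↔ m 0 = a ∧ m 1 = b := by
  constructor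
  · rintro rfl
    simp [mon]
  · rintro ⟨h0, h1⟩
    ext i
    fin_cases i
    · simp [mon, h0]
    · simp [mon, h1]

open Polynomial in
theorem ev_spec (P : MvPolynomial (Fin 2) ℤ) : ∃ L0 L1 : ℤ[X],
    (ev P).fst = algebraMap ℤ[X] KK L0 ∧ (ev P).snd = algebraMap ℤ[X] KK L1 ∧
    (∀ a, L0.coeff a = P.coeff (mon a 0)) ∧ (∀ a, L1.coeff a = P.coeff (mon a 1)) := by
  induction P using MvPolynomial.monomial_add_induction_on with
  | C z =>
    refine ⟨C z, 0, ?_, ?_, ?_, ?_⟩
    · simp [ev]
    · simp [ev]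
    · intro a
      rw [MvPolynomial.coeff_C, coeff_C]
      have : (0 = mon a 0) ↔ a = 0 := by
        rw [mon_eq]; simp [eq_comm]
      simp [this]
    · intro a
      rw [MvPolynomial.coeff_C]
      have : ¬ (0 = mon a 1) := by
        rw [mon_eq]; simp
      simp [this]
  | monomial_add m z P _ _ ih =>
    obtain ⟨L0, L1, h0, h1, h2, h3⟩ := ih
    have hev : ev (MvPolynomial.monomial m z)
        = (z : DualNumber KK) * (TrivSqZeroExt.inl qK) ^ (m 0) * DualNumber.eps ^ (m 1) := by
      unfold ev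
      rw [MvPolynomial.coe_eval₂Hom, MvPolynomial.eval₂_monomial, Finsupp.prod_fintype _ _
        (fun _ => pow_zero _), Fin.prod_univ_two]
      simp [mul_assoc]
    have hq : (TrivSqZeroExt.inl qK : DualNumber KK) ^ (m 0)
        = TrivSqZeroExt.inl (algebraMap ℤ[X] KK (X ^ (m 0))) := by
      rw [map_pow, ← TrivSqZeroExt.inl_pow]; rfl
    have hz : (z : DualNumber KK) = TrivSqZeroExt.inl (algebraMap ℤ[X] KK (C z)) := by
      simp
    have heps : (DualNumber.eps : DualNumber KK) ^ (m 1)
        = TrivSqZeroExt.inl (if m 1 = 0 then 1 else 0) + TrivSqZeroExt.inr (if m 1 = 1 then 1 else 0) := by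
      rcases hm : m 1 with _ | _ | k
      · simp
      · rw [zero_add, pow_one, if_neg (by omega), if_pos rfl, TrivSqZeroExt.inl_zero, zero_add]
        rfl
      · rw [show k + 1 + 1 = k + 2 from rfl, pow_add, pow_two, DualNumber.eps_mul_eps]
        simp
    refine ⟨(if m 1 = 0 then C z * X ^ (m 0) else 0) + L0,
      (if m 1 = 1 then C z * X ^ (m 0) else 0) + L1, ?_, ?_, ?_, ?_⟩
    · rw [map_add, TrivSqZeroExt.fst_add, h0, hev, hq, hz, heps, map_add]
      congr 1
      split_ifs <;> simp
    · rw [map_add, TrivSqZeroExt.snd_add, h1, hev, hq, hz, heps, map_add]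
      congr 1
      split_ifs <;> simp
    · intro a
      rw [coeff_add, MvPolynomial.coeff_add, h2, MvPolynomial.coeff_monomial]
      congr 1
      by_cases h : m 1 = 0
      · rw [if_pos h, coeff_C_mul, coeff_X_pow]
        by_cases h' : m 0 = a
        · have : m = mon a 0 := (mon_eq m a 0).mpr ⟨h', h⟩
          rw [if_pos this, if_pos h'.symm, mul_one]
        · have : ¬ m = mon a 0 := fun h'' => h' ((mon_eq m a 0).mp h'').1
          rw [if_neg this, if_neg (fun h'' => h' h''.symm), mul_zero]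
      · have : ¬ m = mon a 0 := fun h'' => h ((mon_eq m a 0).mp h'').2
        rw [if_neg h, if_neg this, coeff_zero]
    · intro a
      rw [coeff_add, MvPolynomial.coeff_add, h3, MvPolynomial.coeff_monomial]
      congr 1
      by_cases h : m 1 = 1
      · rw [if_pos h, coeff_C_mul, coeff_X_pow]
        by_cases h' : m 0 = a
        · have : m = mon a 1 := (mon_eq m a 1).mpr ⟨h', h⟩
          rw [if_pos this, if_pos h'.symm, mul_one]
        · have : ¬ m = mon a 1 := fun h'' => h' ((mon_eq m a 1).mp h'').1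
          rw [if_neg this, if_neg (fun h'' => h' h''.symm), mul_zero]
      · have : ¬ m = mon a 1 := fun h'' => h ((mon_eq m a 1).mp h'').2
        rw [if_neg h, if_neg this, coeff_zero]

end Pool.Agent.TEhr
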