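import Mathlib
import Pool.Agent.TEhr.Dual

/-!
# The coefficients of `t ^ 0` and `t ^ 1`
-/

namespace Pool.Agent.TEhr

open Finset

theorem isUnit_MM : IsUnit (MM (TrivSqZeroExt.inl qK : DualNumber KK) DualNumber.eps) := by
  rw [TrivSqZeroExt.isUnit_iff_isUnit_fst]
  have : (MM (TrivSqZeroExt.inl qK : DualNumber KK) DualNumber.eps).fst = -(1 - qK) := by
    simp [MM]
  rw [this]
  exact (isUnit_iff_ne_zero.mpr one_sub_qK_ne).neg

theorem inl_sum {ι : Type*} (s : Finset ι) (f : ι → KK) :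
    (TrivSqZeroExt.inl (∑ i ∈ s, f i) : DualNumber KK) = ∑ i ∈ s, TrivSqZeroExt.inl (f i) :=
  map_sum (TrivSqZeroExt.inlHom KK KK) f s

open Polynomial in
theorem TT_eq (b : ℕ → ℕ) (n : ℕ) : algebraMap ℤ[X] KK (TT b n)
    = ∑ d ∈ Dset b n, qK⁻¹ ^ d * (algebraMap ℤ[X] KK (PP X b n) - algebraMap ℤ[X] KK (PPd X b d n)) := by
  unfold TT
  rw [map_sum]
  apply sum_congr rfl
  intro d hd
  have hd1 : 1 ≤ d := (mem_Icc.mp (mem_filter.mp hd).1).1
  rw [← map_sub, PP_sub_PPd _ b d n hd1, map_sum, map_sum, mul_sum]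
  apply sum_congr rfl
  intro i hi
  have hi2 : d < b i := (mem_filter.mp hi).2
  rw [map_mul, map_mul, map_mul, map_mul, map_pow, map_pow, ← mul_assoc, ← mul_assoc]
  congr 2
  show qK ^ (b i - 1 - d) = qK⁻¹ ^ d * qK ^ (b i - 1)
  have : b i - 1 = (b i - 1 - d) + d := by omega
  conv_rhs => rw [this]
  rw [pow_add, mul_left_comm, ← mul_pow, inv_mul_cancel₀ qK_ne, one_pow, mul_one]

variable {n : ℕ} {G : SimpleGraph (Fin (n + 1))} {b : ℕ → ℕ}

open Polynomial in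
theorem coeff_formula (hd : Desc G b)
    (hb2 : ∀ i j, 1 ≤ i → i ≤ n → 1 ≤ j → j < b i → b j = j) :
    (∀ a, (Ehr G).coeff (mon a 0) = (PP (X : ℤ[X]) b n).coeff a) ∧
    (∀ a, (Ehr G).coeff (mon a 1) = (TT b n).coeff a) := by
  obtain ⟨L0, L1, h0, h1, h2, h3⟩ := ev_spec (Ehr G)
  have hq : (TrivSqZeroExt.inl qK : DualNumber KK) * TrivSqZeroExt.inl qK⁻¹ = 1 := by
    rw [← TrivSqZeroExt.inl_mul, mul_inv_cancel₀ qK_ne, TrivSqZeroExt.inl_one]
  have hval : Valid b n (fun _ => 1) := fun j _ _ => ⟨le_rfl, fun _ => rfl⟩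
  have hPP : PP (TrivSqZeroExt.inl qK : DualNumber KK) b n
      = TrivSqZeroExt.inl (algebraMap ℤ[X] KK (PP X b n)) := by
    rw [map_PP]
    exact (map_PP (TrivSqZeroExt.inlHom KK KK) qK b n).symm
  have hPPd : ∀ d, PPd (TrivSqZeroExt.inl qK : DualNumber KK) b d n
      = TrivSqZeroExt.inl (algebraMap ℤ[X] KK (PPd X b d n)) := by
    intro d
    rw [map_PPd]
    exact (map_PPd (TrivSqZeroExt.inlHom KK KK) qK b d n).symm
  have hev : ev (Ehr G) = TrivSqZeroExt.inl (algebraMap ℤ[X] KK (PP X b n))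
        * (1 + DualNumber.eps * TrivSqZeroExt.inl (∑ d ∈ Dset b n, qK⁻¹ ^ d))
      - DualNumber.eps * TrivSqZeroExt.inl
          (∑ d ∈ Dset b n, qK⁻¹ ^ d * algebraMap ℤ[X] KK (PPd X b d n)) := by
    rw [Ehr_eq hd, map_WW, ev_X0, ev_X1,
      WW_eq _ _ (TrivSqZeroExt.inl qK⁻¹) DualNumber.eps_mul_eps hq isUnit_MM b n hd.1 hb2 n le_rfl _
        hval]
    unfold Cl
    simp only [Nat.sub_self, pow_zero, prod_const_one, mul_one]
    have e1 : ∑ d ∈ Dset b n, (TrivSqZeroExt.inl qK⁻¹ : DualNumber KK) ^ d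
        = ∑ d ∈ Dset b n, TrivSqZeroExt.inl (qK⁻¹ ^ d) :=
      sum_congr rfl (fun d _ => TrivSqZeroExt.inl_pow _ _)
    have e2 : ∑ d ∈ Dset b n, (TrivSqZeroExt.inl qK⁻¹ : DualNumber KK) ^ d
          * PPd (TrivSqZeroExt.inl qK : DualNumber KK) b d n
        = ∑ d ∈ Dset b n, TrivSqZeroExt.inl
            (qK⁻¹ ^ d * algebraMap ℤ[X] KK (PPd X b d n)) := by
      apply sum_congr rfl
      intro d _
      rw [hPPd, TrivSqZeroExt.inl_mul, TrivSqZeroExt.inl_pow]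
    rw [hPP, inl_sum, inl_sum, e1, e2]
  have hinj := IsFractionRing.injective ℤ[X] KK
  have hL0 : L0 = PP X b n := by
    apply hinj
    rw [← h0, hev]
    simp
  have hL1 : L1 = TT b n := by
    apply hinj
    rw [← h1, hev, TT_eq]
    simp only [TrivSqZeroExt.snd_sub, TrivSqZeroExt.snd_mul, TrivSqZeroExt.fst_add,
      TrivSqZeroExt.snd_add, TrivSqZeroExt.fst_one, TrivSqZeroExt.snd_one, TrivSqZeroExt.fst_mul,
      TrivSqZeroExt.fst_inl, TrivSqZeroExt.snd_inl, DualNumber.fst_eps, DualNumber.snd_eps]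
    simp only [mul_sub, sum_sub_distrib, ← sum_mul]
    simp
    ring
  exact ⟨fun a => by rw [← h2, hL0], fun a => by rw [← h3, hL1]⟩

end Pool.Agent.TEhr
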