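import Mathlib
import Pool.Agent.TEhr.Form

/-!
# Coefficientwise comparison
-/

namespace Pool.Agent.TEhr

open Finset Polynomial

/-- coefficientwise comparison -/
def LE' (P Q : ℤ[X]) : Prop := ∀ n, P.coeff n ≤ Q.coeff n

theorem LE'.rfl' {P : ℤ[X]} : LE' P P := fun _ => le_rfl

theorem LE'.trans' {P Q S : ℤ[X]} (h : LE' P Q) (h' : LE' Q S) : LE' P S :=
  fun n => (h n).trans (h' n)

theorem LE'.add {P Q P' Q' : ℤ[X]} (h : LE' P P') (h' : LE' Q Q') : LE' (P + Q) (P' + Q') := by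
  intro n; rw [coeff_add, coeff_add]; exact add_le_add (h n) (h' n)

theorem LE'.sum {ι : Type*} {s : Finset ι} {f g : ι → ℤ[X]} (h : ∀ i ∈ s, LE' (f i) (g i)) :
    LE' (∑ i ∈ s, f i) (∑ i ∈ s, g i) := by
  intro n
  rw [finsetSum_coeff, finsetSum_coeff]
  exact sum_le_sum (fun i hi => h i hi n)

theorem LE'.mul {P Q P' Q' : ℤ[X]} (hP : LE' 0 P) (hQ' : LE' 0 Q') (h : LE' P P')
    (h' : LE' Q Q') : LE' (P * Q) (P' * Q') := by
  intro n
  rw [coeff_mul, coeff_mul]
  apply sum_le_sum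
  intro x _
  have h1 := hP x.1
  have h2 := hQ' x.2
  rw [coeff_zero] at h1 h2
  calc P.coeff x.1 * Q.coeff x.2 ≤ P.coeff x.1 * Q'.coeff x.2 :=
        mul_le_mul_of_nonneg_left (h' _) h1
    _ ≤ P'.coeff x.1 * Q'.coeff x.2 := mul_le_mul_of_nonneg_right (h _) h2

theorem LE'.mul_nonneg {P Q : ℤ[X]} (hP : LE' 0 P) (hQ : LE' 0 Q) : LE' 0 (P * Q) := by
  have := LE'.mul (P := 0) (Q := 0) LE'.rfl' hQ hP hQ
  simpa using this

theorem LE'.prod_nonneg {ι : Type*} {s : Finset ι} {f : ι → ℤ[X]} (h : ∀ i ∈ s, LE' 0 (f i)) :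
    LE' 0 (∏ i ∈ s, f i) := by
  classical
  induction s using Finset.induction_on with
  | empty =>
    intro n
    rw [prod_empty, coeff_zero, coeff_one]
    split_ifs <;> norm_num
  | insert a s ha ih =>
    rw [prod_insert ha]
    exact LE'.mul_nonneg (h a (mem_insert_self a s)) (ih (fun i hi => h i (mem_insert_of_mem hi)))

theorem LE'.prod {ι : Type*} {s : Finset ι} {f g : ι → ℤ[X]} (h0 : ∀ i ∈ s, LE' 0 (f i))
    (h : ∀ i ∈ s, LE' (f i) (g i)) : LE' (∏ i ∈ s, f i) (∏ i ∈ s, g i) := by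
  classical
  induction s using Finset.induction_on with
  | empty => rw [prod_empty, prod_empty]; exact LE'.rfl'
  | insert a s ha ih =>
    rw [prod_insert ha, prod_insert ha]
    refine LE'.mul (h0 a (mem_insert_self a s)) ?_ (h a (mem_insert_self a s))
      (ih (fun i hi => h0 i (mem_insert_of_mem hi)) (fun i hi => h i (mem_insert_of_mem hi)))
    exact LE'.prod_nonneg (fun i hi => (h0 i (mem_insert_of_mem hi)).trans'
      (h i (mem_insert_of_mem hi)))

theorem LE'.X_pow (k : ℕ) : LE' 0 (X ^ k : ℤ[X]) := by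
  intro n
  rw [coeff_zero, coeff_X_pow]
  split_ifs <;> norm_num

theorem br_nonneg (k : ℕ) : LE' 0 (br (X : ℤ[X]) k) := by
  intro n
  unfold br
  rw [coeff_zero, finsetSum_coeff]
  apply sum_nonneg
  intro i _
  have := LE'.X_pow i n
  rwa [coeff_zero] at this

theorem br_mono {k l : ℕ} (h : k ≤ l) : LE' (br (X : ℤ[X]) k) (br X l) := by
  intro n
  unfold br
  rw [finsetSum_coeff, finsetSum_coeff]
  apply sum_le_sum_of_subset_of_nonneg
  · intro i hi; rw [mem_range] at hi ⊢; omega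
  · intro i _ _
    have := LE'.X_pow i n
    rwa [coeff_zero] at this

theorem PP_le {b : ℕ → ℕ} {n : ℕ} (hb : ∀ i, 1 ≤ i → i ≤ n → b i ≤ i) :
    LE' (PP (X : ℤ[X]) b n) (PP X (fun i => i) n) := by
  unfold PP
  apply LE'.prod (fun i _ => br_nonneg _)
  intro i hi
  rw [mem_Icc] at hi
  exact br_mono (hb i hi.1 hi.2)

/-- sums over `d` of the powers -/
theorem sum_pow_eq (m : ℕ) : ∑ d ∈ Ico 1 m, (X : ℤ[X]) ^ (m - 1 - d) = br X (m - 1) := by
  unfold br
  rcases m with _ | m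
  · simp
  · rw [Nat.add_sub_cancel]
    have h : ∑ d ∈ Ico 1 (m + 1), (X : ℤ[X]) ^ (m - d) = ∑ d ∈ range m, X ^ (m - 1 - d) := by
      rw [Finset.sum_Ico_eq_sum_range, Nat.add_sub_cancel]
      apply sum_congr rfl
      intro d _
      congr 1
      omega
    rw [h, Finset.sum_range_reflect (fun i => (X : ℤ[X]) ^ i) m]

theorem TT_swap (b : ℕ → ℕ) (n : ℕ) : TT b n = ∑ i ∈ Icc 1 n,
    ∑ d ∈ (Dset b n).filter (fun d => d < b i),
      X ^ (b i - 1 - d) * (∏ j ∈ Ico 1 i, br X (b j)) * ∏ j ∈ Ioc i n, br X (kd d (b j)) := by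
  unfold TT
  simp only [sum_filter]
  rw [sum_comm]

theorem TT_le {b : ℕ → ℕ} {n : ℕ} (hb : ∀ i, 1 ≤ i → i ≤ n → b i ≤ i) :
    LE' (TT b n) (TT (fun i => i) n) := by
  rw [TT_swap, TT_swap]
  apply LE'.sum
  intro i hi
  rw [mem_Icc] at hi
  have hbi := hb i hi.1 hi.2
  set F : ℤ[X] := (∏ j ∈ Ico 1 i, br X j) * ∏ j ∈ Ioc i n, br X (j - 1) with hF
  have hF0 : LE' 0 F :=
    LE'.mul_nonneg (LE'.prod_nonneg (fun _ _ => br_nonneg _))
      (LE'.prod_nonneg (fun _ _ => br_nonneg _))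
  -- the right-hand side
  have hR : ∑ d ∈ (Dset (fun i => i) n).filter (fun d => d < i),
      (X : ℤ[X]) ^ (i - 1 - d) * (∏ j ∈ Ico 1 i, br X j) * ∏ j ∈ Ioc i n, br X (kd d j)
      = br X (i - 1) * F := by
    have h1 : (Dset (fun i => i) n).filter (fun d => d < i) = Ico 1 i := by
      ext d
      simp only [Dset, mem_filter, mem_Icc, mem_Ico]
      constructor
      · rintro ⟨⟨⟨h3, _⟩, _⟩, h4⟩
        exact ⟨h3, h4⟩
      · rintro ⟨h3, h4⟩
        exact ⟨⟨⟨h3, by omega⟩, trivial⟩, h4⟩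
    rw [h1, ← sum_pow_eq, sum_mul]
    apply sum_congr rfl
    intro d hd
    rw [mem_Ico] at hd
    rw [hF, mul_assoc]
    congr 2
    apply prod_congr rfl
    intro j hj
    rw [mem_Ioc] at hj
    rw [kd_gt (by omega)]
  rw [hR]
  -- the left-hand side
  have hL : LE' (∑ d ∈ (Dset b n).filter (fun d => d < b i),
      (X : ℤ[X]) ^ (b i - 1 - d) * (∏ j ∈ Ico 1 i, br X (b j)) *
        ∏ j ∈ Ioc i n, br X (kd d (b j)))
      (∑ d ∈ Ico 1 (b i), (X : ℤ[X]) ^ (b i - 1 - d) * F) := by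
    have h2 : LE' (∑ d ∈ (Dset b n).filter (fun d => d < b i),
        (X : ℤ[X]) ^ (b i - 1 - d) * (∏ j ∈ Ico 1 i, br X (b j)) *
          ∏ j ∈ Ioc i n, br X (kd d (b j)))
        (∑ d ∈ (Dset b n).filter (fun d => d < b i), (X : ℤ[X]) ^ (b i - 1 - d) * F) := by
      apply LE'.sum
      intro d hd
      have hd' : d < b i := (mem_filter.mp hd).2
      rw [mul_assoc]
      refine LE'.mul (LE'.X_pow _) hF0 LE'.rfl' ?_
      refine LE'.mul (LE'.prod_nonneg (fun _ _ => br_nonneg _))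
        (LE'.prod_nonneg (fun _ _ => br_nonneg _)) ?_ ?_
      · apply LE'.prod (fun _ _ => br_nonneg _)
        intro j hj
        rw [mem_Ico] at hj
        exact br_mono (hb j hj.1 (by omega))
      · apply LE'.prod (fun _ _ => br_nonneg _)
        intro j hj
        rw [mem_Ioc] at hj
        have := hb j (by omega) hj.2
        apply br_mono
        unfold kd
        split_ifs <;> omega
    refine h2.trans' ?_
    intro m
    rw [finsetSum_coeff, finsetSum_coeff]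
    apply sum_le_sum_of_subset_of_nonneg
    · intro d hd
      simp only [Dset, mem_filter, mem_Icc] at hd
      rw [mem_Ico]
      omega
    · intro d _ _
      have := LE'.mul_nonneg (LE'.X_pow (b i - 1 - d)) hF0 m
      rwa [coeff_zero] at this
  refine hL.trans' ?_
  rw [← sum_mul, sum_pow_eq]
  exact LE'.mul (br_nonneg _) hF0 (br_mono (by omega)) LE'.rfl'

end Pool.Agent.TEhr
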