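import Mathlib
import Pool.Agent.TEhr.Defs
import Pool.Agent.TEhr.Dual

/-!
# The symmetry in `q` and `t`
-/

namespace Pool.Agent.TEhr

open Finset MvPolynomial

/-- the exchange of `q` and `t` -/
noncomputable def sw : MvPolynomial (Fin 2) ℤ →ₐ[ℤ] MvPolynomial (Fin 2) ℤ :=
  rename (Equiv.swap (0 : Fin 2) 1)

theorem sw_X0 : sw (X 0) = X 1 := by simp [sw]
theorem sw_X1 : sw (X 1) = X 0 := by simp [sw]

theorem sw_wt (b : ℕ) : sw (wt b) = wt b := by
  unfold wt
  split_ifs with h
  · simp
  · rw [map_sum, ← Finset.sum_range_reflect]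
    apply sum_congr rfl
    intro i hi
    rw [mem_range] at hi
    rw [map_mul, map_pow, map_pow, sw_X0, sw_X1, mul_comm]
    congr 2
    omega

theorem sw_weight {n : ℕ} (A : Fin (n + 1) → Fin (n + 1) → ℕ) : sw (weight A) = weight A := by
  unfold weight
  rw [map_mul, map_pow, map_neg, map_mul, map_sub, map_sub, map_one, sw_X0, sw_X1, map_prod,
    mul_comm (1 - X 1 : MvPolynomial (Fin 2) ℤ) (1 - X 0)]
  congr 1
  apply prod_congr rfl
  intro i _
  rw [map_prod]
  exact prod_congr rfl (fun j _ => sw_wt _)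

theorem sw_injective : Function.Injective sw :=
  rename_injective _ (Equiv.injective _)

theorem coeff_sw (P : MvPolynomial (Fin 2) ℤ) (a b : ℕ) :
    (sw P).coeff (mon a b) = P.coeff (mon b a) := by
  have h : mon a b = Finsupp.mapDomain (Equiv.swap (0 : Fin 2) 1) (mon b a) := by
    unfold mon
    rw [Finsupp.mapDomain_add, Finsupp.mapDomain_single, Finsupp.mapDomain_single]
    simp [add_comm]
  rw [h]
  exact coeff_rename_mapDomain _ (Equiv.injective _) _ _

end Pool.Agent.TEhr
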