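import Mathlib
import Pool.Agent.TEhr.Defs
import Pool.Agent.TEhr.Conv

/-!
# Degree sorted threshold graphs are described by back-degrees
-/

namespace Pool.Agent.TEhr

variable {n : ℕ}

/-- the neighbours of `u` other than `v` are neighbours of `v` -/
def Nest (G : SimpleGraph (Fin n)) (u v : Fin n) : Prop :=
  ∀ w, w ≠ u → w ≠ v → G.Adj u w → G.Adj v w

theorem nest_total {G : SimpleGraph (Fin n)} (hG : IsThreshold G) (u v : Fin n) :
    Nest G u v ∨ Nest G v u := by
  obtain ⟨σ, τ, h⟩ := hG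
  have key : ∀ i j : Fin n, i < j → Nest G (σ i) (σ j) ∨ Nest G (σ j) (σ i) := by
    intro i j hij
    by_cases hτ : τ j
    · left
      intro w hwi hwj hadj
      obtain ⟨k, rfl⟩ := σ.surjective w
      have hkj : k ≠ j := fun h' => hwj (by rw [h'])
      rcases lt_or_gt_of_ne hkj with h1 | h1
      · exact ((h k j h1).mpr hτ).symm
      · exact (h j k h1).mpr ((h i k (hij.trans h1)).mp hadj)
    · right
      intro w hwj hwi hadj
      obtain ⟨k, rfl⟩ := σ.surjective w
      have hkj : k ≠ j := fun h' => hwj (by rw [h'])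
      rcases lt_or_gt_of_ne hkj with h1 | h1
      · exact absurd ((h k j h1).mp hadj.symm) hτ
      · exact (h i k (hij.trans h1)).mpr ((h j k h1).mp hadj)
  obtain ⟨i, rfl⟩ := σ.surjective u
  obtain ⟨j, rfl⟩ := σ.surjective v
  rcases lt_trichotomy i j with h1 | h1 | h1
  · exact key i j h1
  · subst h1
    left
    exact fun w _ _ h2 => h2
  · exact (key j i h1).symm

theorem nest_of_lt {G : SimpleGraph (Fin n)} (hG : IsThreshold G) (hs : DegreeSorted G)
    {a b : Fin n} (hab : a < b) : Nest G b a := by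
  rcases nest_total hG a b with h | h
  · -- equality of the two sets
    have hsub : G.neighborSet a \ {b} ⊆ G.neighborSet b \ {a} := by
      intro w hw
      have h1 : G.Adj a w := hw.1
      have h2 : w ≠ b := hw.2
      have h3 : w ≠ a := fun h' => G.loopless.irrefl a (by rw [h'] at h1; exact h1)
      exact ⟨h w h3 h2 h1, h3⟩
    have hcard : (G.neighborSet b \ {a}).ncard ≤ (G.neighborSet a \ {b}).ncard := by
      have h0 := hs a b hab
      by_cases hadj : G.Adj a b
      · rw [Set.ncard_sdiff_singleton_of_mem (show a ∈ G.neighborSet b from hadj.symm),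
          Set.ncard_sdiff_singleton_of_mem (show b ∈ G.neighborSet a from hadj)]
        omega
      · rw [Set.sdiff_singleton_eq_self (show a ∉ G.neighborSet b from fun h' => hadj h'.symm),
          Set.sdiff_singleton_eq_self (show b ∉ G.neighborSet a from hadj)]
        exact h0
    have heq := Set.eq_of_subset_of_ncard_le hsub hcard (Set.toFinite _)
    intro w hwb hwa hadj
    have h4 : w ∈ G.neighborSet b \ {a} := ⟨hadj, hwa⟩
    rw [← heq] at h4
    exact h4.1
  · exact h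

variable {m : ℕ}

open Classical in
/-- the back-degree -/
noncomputable def bk (G : SimpleGraph (Fin (m + 1))) (i : ℕ) : ℕ :=
  Nat.find (p := fun k => i ≤ k ∨ ∀ (hi : i < m + 1) (hk : k < m + 1), ¬ G.Adj ⟨i, hi⟩ ⟨k, hk⟩)
    ⟨i, Or.inl le_rfl⟩

theorem bk_le (G : SimpleGraph (Fin (m + 1))) (i : ℕ) : bk G i ≤ i := by
  classical
  exact Nat.find_min' _ (Or.inl le_rfl)

theorem bk_desc {G : SimpleGraph (Fin (m + 1))} (hG : IsThreshold G) (hs : DegreeSorted G) :
    Desc G (bk G) := by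
  classical
  refine ⟨fun i _ _ => bk_le G i, fun i j hji => ⟨fun hadj => ?_, fun hlt => ?_⟩⟩
  · by_contra hlt
    have hspec : (i : ℕ) ≤ bk G i ∨ ∀ (hi : (i : ℕ) < m + 1) (hk : bk G i < m + 1),
        ¬ G.Adj ⟨i, hi⟩ ⟨bk G i, hk⟩ := by
      unfold bk
      exact Nat.find_spec (p := fun k => (i : ℕ) ≤ k ∨ ∀ (hi : (i : ℕ) < m + 1) (hk : k < m + 1),
        ¬ G.Adj ⟨i, hi⟩ ⟨k, hk⟩) ⟨i, Or.inl le_rfl⟩
    have hji' : (j : ℕ) < i := hji
    rcases hspec with h1 | h1
    · omega
    · have hkm : bk G i < m + 1 := by have := i.2; omega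
      apply h1 i.2 hkm
      by_cases hjk : (j : ℕ) = bk G i
      · have : j = ⟨bk G i, hkm⟩ := Fin.ext hjk
        rw [← this]; exact hadj
      · have hkj : (⟨bk G i, hkm⟩ : Fin (m + 1)) < j := by
          rw [Fin.lt_def]; simp only; omega
        have h2 := nest_of_lt hG hs hkj
        exact (h2 i (ne_of_gt hji) (ne_of_gt (hkj.trans hji)) hadj.symm).symm
  · have h1 := Nat.find_min (p := fun k => (i : ℕ) ≤ k ∨ ∀ (hi : (i : ℕ) < m + 1)
      (hk : k < m + 1), ¬ G.Adj ⟨i, hi⟩ ⟨k, hk⟩) ⟨i, Or.inl le_rfl⟩ (m := (j : ℕ)) hlt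
    rw [not_or] at h1
    have h2 := h1.2
    by_contra h3
    exact h2 (fun _ _ => h3)

theorem bk_eq {G : SimpleGraph (Fin (m + 1))} (hG : IsThreshold G) (hs : DegreeSorted G)
    (i j : ℕ) (_ : 1 ≤ i) (hi : i ≤ m) (_ : 1 ≤ j) (hj : j < bk G i) : bk G j = j := by
  have hd := bk_desc hG hs
  have hle := bk_le G i
  have hji : (⟨j, by omega⟩ : Fin (m + 1)) < ⟨i, by omega⟩ := by
    rw [Fin.lt_def]; simp only; omega
  have hadj : G.Adj ⟨i, by omega⟩ ⟨j, by omega⟩ := (hd.2 _ _ hji).mpr hj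
  by_contra hne
  have hlt : bk G j < j := lt_of_le_of_ne (bk_le G j) hne
  have ha : (⟨bk G j, by omega⟩ : Fin (m + 1)) < ⟨j, by omega⟩ := by
    rw [Fin.lt_def]; exact hlt
  -- `i` is adjacent to `bk G j`
  have h1 : G.Adj ⟨i, by omega⟩ ⟨bk G j, by omega⟩ :=
    (hd.2 _ _ (ha.trans hji)).mpr (by simp only; omega)
  have h2 := nest_of_lt hG hs hji
  have h3 := h2 ⟨bk G j, by omega⟩ (ne_of_lt (ha.trans hji)) (ne_of_lt ha) h1
  have h4 := (hd.2 _ _ ha).mp h3
  simp only at h4
  omega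

theorem top_desc : Desc (⊤ : SimpleGraph (Fin (m + 1))) (fun i => i) := by
  refine ⟨fun i _ _ => le_rfl, fun i j hji => ?_⟩
  rw [SimpleGraph.top_adj]
  exact ⟨fun _ => hji, fun _ => ne_of_gt hji⟩

end Pool.Agent.TEhr
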